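import Pool.Agent.H30.BV.Targets

/-!
# bv_modules CB: trivial bound for character sums
-/

set_option autoImplicit false

open Finset Real ArithmeticFunction
open scoped Nat

namespace Pool.Agent.H71.BV

open Pool.Agent.H30.BV

theorem sum_period (n : ℕ) (χ : DirichletCharacter ℂ (n + 1)) (hχ : χ ≠ 1) :
    ∑ k ∈ range (n + 1), cv χ k = 0 := by
  rw [Finset.sum_range]
  have h1 : ∀ i : Fin (n + 1), cv χ (i : ℕ) = χ (i : ZMod (n + 1)) := by
    intro i
    unfold cv
    congr 1
    exact ZMod.natCast_zmod_val (n := n + 1) (i : ZMod (n + 1))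
  rw [Finset.sum_congr rfl fun i _ => h1 i]
  exact MulChar.sum_eq_zero_of_ne_one hχ

theorem cb : T_CB := by
  intro q χ hq hχ M
  obtain ⟨n, rfl⟩ : ∃ n, q = n + 1 := ⟨q - 1, by omega⟩
  have hper : ∀ k : ℕ, cv χ (n + 1 + k) = cv χ k := by
    intro k
    unfold cv
    congr 1
    have : ((n + 1 + k : ℕ) : ZMod (n + 1)) = ((n + 1 : ℕ) : ZMod (n + 1)) + (k : ZMod (n + 1)) := by
      rw [Nat.cast_add]
    rw [this, ZMod.natCast_self, zero_add]
  have key : ∀ a b : ℕ, ∑ k ∈ range ((n + 1) * a + b), cv χ k = ∑ k ∈ range b, cv χ k := by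
    intro a
    induction a with
    | zero => intro b; rw [mul_zero, zero_add]
    | succ a ih =>
      intro b
      have e1 : (n + 1) * (a + 1) + b = (n + 1) + ((n + 1) * a + b) := by ring
      rw [e1, Finset.sum_range_add, sum_period n χ hχ, zero_add, ← ih b]
      exact Finset.sum_congr rfl fun k _ => hper k
  have hM : M = (n + 1) * (M / (n + 1)) + M % (n + 1) := (Nat.div_add_mod M (n + 1)).symm
  rw [hM, key]
  refine (norm_sum_le _ _).trans ?_
  have h2 : ∀ k ∈ range (M % (n + 1)), ‖cv χ k‖ ≤ 1 := fun k _ =>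
    DirichletCharacter.norm_le_one χ _
  refine (Finset.sum_le_sum h2).trans ?_
  rw [Finset.sum_const, card_range, nsmul_eq_mul, mul_one]
  exact_mod_cast (Nat.mod_lt M (Nat.succ_pos n)).le

end Pool.Agent.H71.BV
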